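import Mathlib

namespace Pool.Agent.H.MP_742cc2_an

open Set Filter Topology Real

abbrev T2 := UnitAddCircle × UnitAddCircle

theorem exr : ∃ r : ℝ, r ^ 3 = 2 ∧ 5 / 4 < r ∧ r < 13 / 10 := by
  have h : (2 : ℝ) ∈ (fun x : ℝ => x ^ 3) '' Ioo (5 / 4) (13 / 10) :=
    intermediate_value_Ioo (by norm_num) (by fun_prop) ⟨by norm_num, by norm_num⟩
  obtain ⟨r, h1, h2⟩ := h
  exact ⟨r, h2, h1.1, h1.2⟩

theorem kr1 {r : ℝ} (h3 : r ^ 3 = 2) (h1 : 5 / 4 < r) (h2 : r < 13 / 10) (k : ℕ) :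
    ∀ x y : ℝ, ∃ n a b : ℤ, |x - (a - n * r ^ 2)| ≤ 3 * (9 / 10) ^ k ∧
      |y - (b - n * r)| ≤ 2 * (9 / 10) ^ k := by
  induction k with
  | zero =>
    intro x y
    refine ⟨0, round x, round y, ?_, ?_⟩
    · have := abs_sub_round x
      simp only [Int.cast_zero, zero_mul, sub_zero, pow_zero]; linarith
    · have := abs_sub_round y
      simp only [Int.cast_zero, zero_mul, sub_zero, pow_zero]; linarith
  | succ k ih =>
    intro x y
    obtain ⟨n, a, b, hx, hy⟩ := ih (-x - r ^ 2 * y) (x - r * y - y)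
    refine ⟨a + b + n, a + 2 * b + 2 * n, a + b + 2 * n, ?_, ?_⟩
    · have e : x - (((a + 2 * b + 2 * n : ℤ) : ℝ) - ((a + b + n : ℤ) : ℝ) * r ^ 2)
          = (1 - r ^ 2) * (-x - r ^ 2 * y - (a - n * r ^ 2))
            + (2 - r ^ 2) * (x - r * y - y - (b - n * r)) := by
        push_cast
        linear_combination (-(y : ℝ) * r - y + n * r + n) * h3
      rw [e]
      refine (abs_add_le _ _).trans ?_
      rw [abs_mul, abs_mul, abs_of_nonpos (by nlinarith : 1 - r ^ 2 ≤ 0),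
        abs_of_nonneg (by nlinarith : 0 ≤ 2 - r ^ 2), pow_succ (9 / 10 : ℝ)]
      have p : (0 : ℝ) < (9 / 10) ^ k := by positivity
      have q1 := mul_le_mul_of_nonneg_left hx (by nlinarith : 0 ≤ -(1 - r ^ 2))
      have q2 := mul_le_mul_of_nonneg_left hy (by nlinarith : 0 ≤ 2 - r ^ 2)
      have q3 : r ^ 2 ≤ 17 / 10 := by nlinarith
      nlinarith
    · have e : y - (((a + b + 2 * n : ℤ) : ℝ) - ((a + b + n : ℤ) : ℝ) * r)
          = (1 - r) * (-x - r ^ 2 * y - (a - n * r ^ 2))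
            + (1 - r) * (x - r * y - y - (b - n * r)) := by
        push_cast
        linear_combination (-(y : ℝ) + n) * h3
      rw [e]
      refine (abs_add_le _ _).trans ?_
      rw [abs_mul, abs_mul, abs_of_nonpos (by nlinarith : 1 - r ≤ 0), pow_succ (9 / 10 : ℝ)]
      have p : (0 : ℝ) < (9 / 10) ^ k := by positivity
      have q1 := mul_le_mul_of_nonneg_left hx (by nlinarith : 0 ≤ -(1 - r))
      have q2 := mul_le_mul_of_nonneg_left hy (by nlinarith : 0 ≤ -(1 - r))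
      nlinarith

noncomputable def al (r : ℝ) : T2 := (((r ^ 2 : ℝ) : UnitAddCircle), ((r : ℝ) : UnitAddCircle))

theorem coeInt (a : ℤ) : (((a : ℝ) : ℝ) : UnitAddCircle) = 0 := by
  rw [AddCircle.coe_eq_zero_iff]
  exact ⟨a, by simp⟩

theorem nrm (s : ℝ) : ‖(s : UnitAddCircle)‖ ≤ |s| := by
  rw [← Real.norm_eq_abs]
  exact QuotientAddGroup.norm_mk_le_norm

theorem kron {r : ℝ} (h3 : r ^ 3 = 2) (h1 : 5 / 4 < r) (h2 : r < 13 / 10) (z : T2) :
    Dense (range fun n : ℤ => z + n • al r) := by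
  rw [Metric.dense_iff]
  intro w δ hδ
  obtain ⟨k, hk⟩ := exists_pow_lt_of_lt_one (by positivity : 0 < δ / 3) (by norm_num : (9 / 10 : ℝ) < 1)
  obtain ⟨x, hx⟩ := QuotientAddGroup.mk_surjective (w.1 - z.1)
  obtain ⟨y, hy⟩ := QuotientAddGroup.mk_surjective (w.2 - z.2)
  obtain ⟨n, a, b, ha, hb⟩ := kr1 h3 h1 h2 k x y
  refine ⟨_, ?_, ⟨-n, rfl⟩⟩
  have p : (0 : ℝ) < (9 / 10) ^ k := by positivity
  rw [Metric.mem_ball, dist_comm, dist_eq_norm, Prod.norm_def, max_lt_iff]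
  constructor
  · have e : (w - (z + -n • al r)).1 = ((x - (a - n * r ^ 2) : ℝ) : UnitAddCircle) := by
      rw [AddCircle.coe_sub, AddCircle.coe_sub, coeInt, hx, ← zsmul_eq_mul, AddCircle.coe_zsmul]
      simp only [al, Prod.fst_sub, Prod.fst_add, Prod.smul_fst, neg_smul, Prod.fst_neg]
      abel
    rw [e]
    exact (nrm _).trans_lt (by linarith)
  · have e : (w - (z + -n • al r)).2 = ((y - (b - n * r) : ℝ) : UnitAddCircle) := by
      rw [AddCircle.coe_sub, AddCircle.coe_sub, coeInt, hy, ← zsmul_eq_mul, AddCircle.coe_zsmul]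
      simp only [al, Prod.snd_sub, Prod.snd_add, Prod.smul_snd, neg_smul, Prod.snd_neg]
      abel
    rw [e]
    exact (nrm _).trans_lt (by linarith)

theorem units {r : ℝ} (h3 : r ^ 3 = 2) (k : ℕ) :
    ∃ a b c : ℤ, (r - 1) ^ k = a + b * r + c * r ^ 2 ∧ |a| ≤ 3 ^ k ∧ |b| ≤ 3 ^ k ∧ |c| ≤ 3 ^ k := by
  induction k with
  | zero => exact ⟨1, 0, 0, by simp, by simp, by simp, by simp⟩
  | succ k ih =>
    obtain ⟨a, b, c, e, ha, hb, hc⟩ := ih
    rw [abs_le] at ha hb hc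
    refine ⟨2 * c - a, a - b, b - c, ?_, ?_, ?_, ?_⟩
    · rw [pow_succ, e]; push_cast; linear_combination (c : ℝ) * h3
    all_goals rw [abs_le, pow_succ]; constructor <;> linarith [ha.1, ha.2, hb.1, hb.2, hc.1, hc.2]

noncomputable def Cs (y : UnitAddCircle) : ℝ := ((AddCircle.toCircle y : Circle) : ℂ).re

theorem Cs_coe (s : ℝ) : Cs (s : UnitAddCircle) = cos (2 * π * s) := by
  rw [Cs, AddCircle.toCircle_apply_mk, Circle.coe_exp, Complex.exp_ofReal_mul_I_re]
  simp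

theorem Cs_cont : Continuous Cs := by
  unfold Cs
  have := AddCircle.continuous_toCircle (T := 1)
  fun_prop

theorem Cs_lip (y : UnitAddCircle) (s : ℝ) : |Cs y - Cs (y + s)| ≤ 2 * π * |s| := by
  obtain ⟨x, rfl⟩ := QuotientAddGroup.mk_surjective y
  rw [← AddCircle.coe_add, Cs_coe, Cs_coe]
  refine (abs_cos_sub_cos_le _ _).trans (le_of_eq ?_)
  rw [show 2 * π * x - 2 * π * (x + s) = -(2 * π * s) by ring, abs_neg, abs_mul,
    abs_of_pos (by positivity : 0 < 2 * π)]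

theorem trans_of {al : T2} (hd : ∀ z : T2, Dense (range fun n : ℤ => z + n • al))
    (P : ℤ → T2 → ℝ) (hc : ∀ n, Continuous (P n))
    (hco : ∀ n m x, P (n + m) x = P n x + P m (x + n • al))
    (hr : ∀ s : ℝ, ∀ᶠ n in cofinite, ∃ x, P n x = s) :
    ∃ z : T2 × ℝ, Dense (range fun n : ℤ => (z.1 + n • al, z.2 + P n z.1)) := by
  let S : Set (T2 × T2 × ℝ) := range fun p : T2 × ℤ => (p.1, p.2 • al, P p.2 p.1)
  have hA : ∀ m : ℤ, ∀ x a s, (x, a, s) ∈ closure S →
      (x + m • al, a, s + P m (x + a) - P m x) ∈ closure S := by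
    intro m x a s h
    have := hc m
    refine map_mem_closure (f := fun q : T2 × T2 × ℝ =>
      (q.1 + m • al, q.2.1, q.2.2 + P m (q.1 + q.2.1) - P m q.1)) (by fun_prop) h ?_
    rintro _ ⟨⟨y, n⟩, rfl⟩
    refine ⟨(y + m • al, n), ?_⟩
    have h1 := hco n m y
    have h2 := hco m n y
    rw [add_comm m n] at h2
    simp only [Prod.mk.injEq, true_and]
    linarith
  have hB : ∀ m : ℤ, ∀ x a s, (x, a, s) ∈ closure S →
      (x, a + m • al, s + P m (x + a)) ∈ closure S := by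
    intro m x a s h
    have := hc m
    refine map_mem_closure (f := fun q : T2 × T2 × ℝ =>
      (q.1, q.2.1 + m • al, q.2.2 + P m (q.1 + q.2.1))) (by fun_prop) h ?_
    rintro _ ⟨⟨y, n⟩, rfl⟩
    refine ⟨(y, n + m), ?_⟩
    simp only [add_smul, hco n m y]
  have hN : Nontrivial T2 := by
    refine ⟨⟨((0 : UnitAddCircle), 0), (((1 / 2 : ℝ) : UnitAddCircle), 0), fun h => ?_⟩⟩
    have h1 : (((1 / 2 : ℝ)) : UnitAddCircle) = 0 := (congrArg Prod.fst h).symm
    rw [AddCircle.coe_eq_zero_iff] at h1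
    obtain ⟨n, hn⟩ := h1
    simp only [zsmul_eq_mul, mul_one] at hn
    have h2 : ((2 * n : ℤ) : ℝ) = ((1 : ℤ) : ℝ) := by push_cast; linarith
    have := Int.cast_injective h2
    omega
  have h0 : ∀ s, ∃ x, (x, (0 : T2), s) ∈ closure S := by
    intro s
    have hcl : IsClosed (Prod.snd '' {q : T2 × T2 | (q.1, q.2, s) ∈ closure S}) :=
      isClosedMap_snd_of_compactSpace _ (isClosed_closure.preimage (by fun_prop))
    have hf : {n : ℤ | ¬ ∃ x, P n x = s}.Finite := hr s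
    have hdd := (hd 0).sdiff_finite (hf.image fun n : ℤ => (0 : T2) + n • al)
    have hsub : (range fun n : ℤ => (0 : T2) + n • al) \
        (fun n : ℤ => (0 : T2) + n • al) '' {n : ℤ | ¬ ∃ x, P n x = s} ⊆
        Prod.snd '' {q : T2 × T2 | (q.1, q.2, s) ∈ closure S} := by
      rintro _ ⟨⟨n, rfl⟩, hn⟩
      have : ∃ x, P n x = s := by
        by_contra h
        exact hn ⟨n, h, rfl⟩
      obtain ⟨x, hx⟩ := this
      exact ⟨(x, n • al), subset_closure ⟨(x, n), by simp [hx]⟩, by simp⟩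
    obtain ⟨q, hq, e⟩ := hcl.closure_subset ((hdd.mono hsub) 0)
    exact ⟨q.1, e ▸ hq⟩
  have h1 : ∀ x s, (x, (0 : T2), s) ∈ closure S := by
    intro x s
    obtain ⟨y, hy⟩ := h0 s
    have hcl : IsClosed {x : T2 | (x, (0 : T2), s) ∈ closure S} :=
      isClosed_closure.preimage (by fun_prop)
    refine hcl.closure_subset ((hd y).mono ?_ x)
    rintro _ ⟨m, rfl⟩
    have := hA m y 0 s hy
    simpa using this
  have h2 : ∀ x a s, (x, a, s) ∈ closure S := by
    intro x a s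
    have hcl : IsClosed {a : T2 | (x, a, s) ∈ closure S} :=
      isClosed_closure.preimage (by fun_prop)
    refine hcl.closure_subset ((hd 0).mono ?_ a)
    rintro _ ⟨m, rfl⟩
    have := hB m x 0 (s - P m x) (h1 _ _)
    simpa using this
  let G : Set (T2 × ℝ) → Set (T2 × ℝ) := fun V =>
    ⋃ n : ℤ, (fun z : T2 × ℝ => (z.1 + n • al, z.2 + P n z.1)) ⁻¹' V
  have hb := TopologicalSpace.isBasis_countableBasis (T2 × ℝ)
  have hG : Dense (⋂ V ∈ TopologicalSpace.countableBasis (T2 × ℝ), G V) := by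
    refine dense_biInter_of_isOpen ?_ (TopologicalSpace.countable_countableBasis _) ?_
    · intro V hV
      refine isOpen_iUnion fun n => (hb.isOpen hV).preimage ?_
      have := hc n
      fun_prop
    · intro V hV
      obtain ⟨v, hv⟩ := TopologicalSpace.nonempty_of_mem_countableBasis hV
      rw [dense_iff_inter_open]
      rintro U hU ⟨u, hu⟩
      have ho : IsOpen ((fun q : T2 × T2 × ℝ => ((q.1, u.2), (q.1 + q.2.1, u.2 + q.2.2))) ⁻¹'
          (U ×ˢ V)) := (hU.prod (hb.isOpen hV)).preimage (by fun_prop)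
      obtain ⟨_, hq, ⟨p, rfl⟩⟩ := mem_closure_iff.1 (h2 u.1 (v.1 - u.1) (v.2 - u.2)) _ ho
        ⟨hu, by simpa using hv⟩
      exact ⟨(p.1, u.2), hq.1, mem_iUnion.2 ⟨p.2, hq.2⟩⟩
  obtain ⟨z, hz⟩ := hG.nonempty
  refine ⟨z, hb.dense_iff.2 fun V hV _ => ?_⟩
  obtain ⟨n, hn⟩ := mem_iUnion.1 (mem_iInter₂.1 hz V hV)
  exact ⟨_, hn, n, rfl⟩

end Pool.Agent.H.MP_742cc2_an
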